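import Pool.Agent.H85.BC.Basic

/-!
# Row MINP: corners with a minimal projection
-/

set_option autoImplicit false

open scoped InnerProductSpace Topology
open Filter
open Pool.Agent.H85.BC

namespace Pool.Agent.H94.BC

section
variable {H : Type} [NormedAddCommGroup H] [InnerProductSpace ℂ H] [CompleteSpace H]

/-- an orthogonal family of partial isometries with initial projection `f` -/
structure Fam (M : VonNeumannAlgebra H) (p f : H →L[ℂ] H) (n : ℕ)
    (v : Fin n → (H →L[ℂ] H)) : Prop where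
  mem : ∀ i, v i ∈ M
  ini : ∀ i, star (v i) * v i = f
  le : ∀ i, p * v i = v i
  orth : ∀ i j, i ≠ j → star (v i) * v j = 0

variable {N M : VonNeumannAlgebra H} {ξ : H} {p f : H →L[ℂ] H} {n : ℕ}
  {v : Fin n → (H →L[ℂ] H)}

theorem Fam.starSum (h : Fam M p f n v) (hf : IsStarProjection f) (i : Fin n) :
    star (v i) * ∑ j, v j * star (v j) = star (v i) := by
  rw [Finset.mul_sum, Finset.sum_eq_single i]
  · have h1 : IsStarProjection (star (v i) * v i) := by rw [h.ini]; exact hf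
    have h2 := congrArg star (pi_mul_star_mul h1)
    rw [star_mul, star_mul, star_star] at h2
    rw [← mul_assoc]
    exact h2
  · intro j _ hj
    rw [← mul_assoc, h.orth i j hj.symm, zero_mul]
  · intro hi
    exact (hi (Finset.mem_univ i)).elim

theorem Fam.proj (h : Fam M p f n v) (hf : IsStarProjection f) :
    IsStarProjection (∑ j, v j * star (v j)) := by
  refine ⟨?_, ?_⟩
  · change (∑ j, v j * star (v j)) * (∑ j, v j * star (v j)) = _
    rw [Finset.sum_mul]
    refine Finset.sum_congr rfl fun i _ => ?_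
    rw [mul_assoc, h.starSum hf i]
  · change star (∑ j, v j * star (v j)) = _
    rw [star_sum]
    refine Finset.sum_congr rfl fun i _ => ?_
    rw [star_mul, star_star]

theorem Fam.sum_mem (h : Fam M p f n v) : ∑ j, v j * star (v j) ∈ M :=
  sum_mem' M _ _ fun i _ => mul_mem (h.mem i) (star_mem (h.mem i))

theorem Fam.sum_le (h : Fam M p f n v) :
    p * ∑ j, v j * star (v j) = ∑ j, v j * star (v j) := by
  rw [Finset.mul_sum]
  refine Finset.sum_congr rfl fun i _ => ?_
  rw [← mul_assoc, h.le]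

/-- the number of elements is bounded -/
theorem Fam.card (hT : IsTraceVector N ξ) (hMN : ∀ x ∈ M, x ∈ N) (h : Fam M p f n v)
    (hf : IsStarProjection f) : (n : ℝ) * ‖f ξ‖ ^ 2 ≤ 1 := by
  have h1 := tr_proj ξ (h.proj hf)
  have h2 : tr ξ (∑ j, v j * star (v j)) = (((n : ℝ) * ‖f ξ‖ ^ 2 : ℝ) : ℂ) := by
    rw [tr_sum]
    have h3 : ∀ j ∈ (Finset.univ : Finset (Fin n)),
        tr ξ (v j * star (v j)) = ((‖f ξ‖ ^ 2 : ℝ) : ℂ) := by
      intro j _
      rw [hT.trace _ (hMN _ (h.mem j)) _ (star_mem (hMN _ (h.mem j))), h.ini, tr_proj ξ hf]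
    rw [Finset.sum_congr rfl h3, Finset.sum_const, Finset.card_univ, Fintype.card_fin,
      nsmul_eq_mul]
    push_cast
    rfl
  rw [h2] at h1
  have h3 : (n : ℝ) * ‖f ξ‖ ^ 2 = ‖(∑ j, v j * star (v j)) ξ‖ ^ 2 := by exact_mod_cast h1
  rw [h3]
  have h4 := proj_apply_norm_le (h.proj hf) ξ
  rw [hT.norm_eq] at h4
  have h5 := norm_nonneg ((∑ j, v j * star (v j)) ξ)
  nlinarith

/-- the family can be extended -/
theorem Fam.ext (hENF : T_ENF H) (hT : IsTraceVector N ξ) (hMN : ∀ x ∈ M, x ∈ N)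
    (hp : p ∈ M) (hpp : IsStarProjection p) (hF : FactorCorner M p) (hfM : f ∈ M)
    (hf : IsStarProjection f) (hpf : p * f = f) (hf0 : f ≠ 0)
    (hsc : ∀ x ∈ M, ∃ c : ℂ, f * x * f = c • f) (h : Fam M p f n v)
    (hne : ∑ i, v i * star (v i) ≠ p) : ∃ w : Fin (n + 1) → (H →L[ℂ] H), Fam M p f (n + 1) w := by
  set S := ∑ i, v i * star (v i) with hS
  have hSp : IsStarProjection S := h.proj hf
  have hg : IsStarProjection (p - S) := proj_sub hSp hpp h.sum_le
  have hgM : p - S ∈ M := sub_mem hp h.sum_mem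
  have hpg : p * (p - S) = p - S := by
    rw [mul_sub, hpp.isIdempotentElem.eq, h.sum_le]
  have hg0 : p - S ≠ 0 := fun hc => hne (sub_eq_zero.1 hc).symm
  obtain ⟨x, hx, hne0⟩ := hENF M p hp hpp hF (p - S) hgM hg hpg hg0 f hfM hf hpf hf0
  set y := (p - S) * x * f with hy
  have hyM : y ∈ M := mul_mem (mul_mem hgM hx) hfM
  have hyy : star y * y = f * (star x * (p - S) * x) * f := by
    have e1 : star (p - S) = p - S := hg.isSelfAdjoint.star_eq
    have e2 : star f = f := hf.isSelfAdjoint.star_eq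
    have e3 : (p - S) * (p - S) = p - S := hg.isIdempotentElem.eq
    rw [hy, star_mul, star_mul, e1, e2]
    calc f * (star x * (p - S)) * ((p - S) * x * f)
        = f * (star x * ((p - S) * (p - S)) * x) * f := by simp only [mul_assoc]
      _ = f * (star x * (p - S) * x) * f := by rw [e3]
  obtain ⟨c, hc⟩ := hsc (star x * (p - S) * x) (mul_mem (mul_mem (star_mem hx) hgM) hx)
  rw [← hyy] at hc
  have hfx : 0 < ‖f ξ‖ := hT.norm_pos_apply (hMN f hfM) hf0
  have hyx : 0 < ‖y ξ‖ := hT.norm_pos_apply (hMN y hyM) hne0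
  have hcv : c * ((‖f ξ‖ ^ 2 : ℝ) : ℂ) = ((‖y ξ‖ ^ 2 : ℝ) : ℂ) := by
    rw [← tr_star_mul_self ξ y, hc, tr_smul, tr_proj ξ hf]
  set r : ℝ := ‖y ξ‖ / ‖f ξ‖ with hr
  have hr0 : 0 < r := div_pos hyx hfx
  have hcr : c = ((r ^ 2 : ℝ) : ℂ) := by
    have h1 : ((‖f ξ‖ ^ 2 : ℝ) : ℂ) ≠ 0 := by
      exact_mod_cast (pow_pos hfx 2).ne'
    apply mul_right_cancel₀ h1
    rw [hcv, hr]
    have h2 : ‖y ξ‖ ^ 2 = (‖y ξ‖ / ‖f ξ‖) ^ 2 * ‖f ξ‖ ^ 2 := by
      field_simp
    exact_mod_cast h2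
  have hrc : ((r : ℝ) : ℂ) ≠ 0 := by exact_mod_cast hr0.ne'
  set w0 : H →L[ℂ] H := ((r : ℝ) : ℂ)⁻¹ • y with hw0
  have hw0M : w0 ∈ M := smul_mem' M _ hyM
  have hstar : star w0 = ((r : ℝ) : ℂ)⁻¹ • star y := by
    rw [hw0, star_smul]
    congr 1
    rw [star_inv₀]
    congr 1
    exact Complex.conj_ofReal r
  have hini : star w0 * w0 = f := by
    rw [hstar, hw0, smul_mul_smul_comm, hc, hcr, smul_smul]
    have h1 : ((r : ℝ) : ℂ)⁻¹ * ((r : ℝ) : ℂ)⁻¹ * ((r ^ 2 : ℝ) : ℂ) = 1 := by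
      push_cast
      field_simp
    rw [h1, one_smul]
  have hle : p * w0 = w0 := by
    rw [hw0, mul_smul_comm, hy]
    congr 1
    rw [← mul_assoc, ← mul_assoc, hpg]
  have horth : ∀ i, star (v i) * w0 = 0 := by
    intro i
    have h1 : star (v i) * (p - S) = 0 := by
      rw [mul_sub, h.starSum hf i]
      have h2 := congrArg star (h.le i)
      rw [star_mul, hpp.isSelfAdjoint.star_eq] at h2
      rw [h2, sub_self]
    rw [hw0, mul_smul_comm, hy]
    have h2 : star (v i) * ((p - S) * x * f) = star (v i) * (p - S) * x * f := by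
      simp only [mul_assoc]
    rw [h2, h1, zero_mul, zero_mul, smul_zero]
  have horth' : ∀ i, star w0 * v i = 0 := by
    intro i
    have h1 := congrArg star (horth i)
    rw [star_mul, star_star, star_zero] at h1
    exact h1
  refine ⟨Fin.cons w0 v, ?_, ?_, ?_, ?_⟩
  · intro i
    refine Fin.cases ?_ (fun j => ?_) i
    · rw [Fin.cons_zero]; exact hw0M
    · rw [Fin.cons_succ]; exact h.mem j
  · intro i
    refine Fin.cases ?_ (fun j => ?_) i
    · rw [Fin.cons_zero]; exact hini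
    · rw [Fin.cons_succ]; exact h.ini j
  · intro i
    refine Fin.cases ?_ (fun j => ?_) i
    · rw [Fin.cons_zero]; exact hle
    · rw [Fin.cons_succ]; exact h.le j
  · intro i j
    refine Fin.cases ?_ (fun i' => ?_) i <;> refine Fin.cases ?_ (fun j' => ?_) j
    · intro hij; exact (hij rfl).elim
    · intro _
      rw [Fin.cons_zero, Fin.cons_succ]
      exact horth' j'
    · intro _
      rw [Fin.cons_zero, Fin.cons_succ]
      exact horth i'
    · intro hij
      rw [Fin.cons_succ, Fin.cons_succ]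
      exact h.orth i' j' fun hc => hij (by rw [hc])

end

theorem pf_MINP (H : Type) [NormedAddCommGroup H] [InnerProductSpace ℂ H] [CompleteSpace H]
    (hENF : T_ENF H) : T_MINP H := by
  intro N ξ hT M hMN p hp hpp hF f hfM hf hpf hf0 hsc
  by_contra hcon
  have hall : ∀ n : ℕ, ∃ v : Fin n → (H →L[ℂ] H), Fam M p f n v := by
    intro n
    induction n with
    | zero => exact ⟨Fin.elim0, fun i => i.elim0, fun i => i.elim0, fun i => i.elim0,
        fun i => i.elim0⟩
    | succ n ih =>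
      obtain ⟨v, hv⟩ := ih
      refine hv.ext hENF hT hMN hp hpp hF hfM hf hpf hf0 hsc ?_
      intro heq
      exact hcon ⟨n, v, fun i => ⟨hv.mem i, hv.ini i⟩, heq⟩
  have hfx : 0 < ‖f ξ‖ := hT.norm_pos_apply (hMN f hfM) hf0
  obtain ⟨n, hn⟩ := exists_nat_gt (1 / ‖f ξ‖ ^ 2)
  obtain ⟨v, hv⟩ := hall n
  have h1 := hv.card hT hMN hf
  rw [div_lt_iff₀ (pow_pos hfx 2)] at hn
  linarith

end Pool.Agent.H94.BC
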